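import Pool.Agent.Lib.MP_6bc78b_nt.MS.P5.Iface

/-! Project MS, Part V, module CNT: from weighted inequalities to counts. -/

set_option autoImplicit false

open Complex Filter Topology ArithmeticFunction

namespace Pool.Agent.Lib.MP_6bc78b_nt.MS.P5.H70

open Pool.Agent.Lib.MP_6bc78b_nt.MS Pool.Agent.Lib.MP_6bc78b_nt.MS.P5

/-- The grid. -/
noncomputable def grid (X1 : ℝ) : ℕ → ℝ
  | 0 => X1
  | i + 1 => grid X1 i + DD (grid X1 i)

lemma log_ge_one {T : ℝ} (hT : 3 ≤ T) : 1 < Real.log T := by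
  have h : Real.exp 1 < T := by
    have := Real.exp_one_lt_d9
    linarith
  have := Real.log_lt_log (Real.exp_pos 1) h
  rwa [Real.log_exp] at this

lemma one_le_DD {T : ℝ} (hT : 3 ≤ T) : 1 ≤ DD T := by
  have hl := log_ge_one hT
  unfold DD
  rw [le_div_iff₀ (Real.rpow_pos_of_pos (by linarith) _), one_mul]
  calc Real.log T ^ (2 / 3 : ℝ) ≤ Real.log T ^ (1 : ℝ) :=
        Real.rpow_le_rpow_of_exponent_le hl.le (by norm_num)
    _ = Real.log T := Real.rpow_one _
    _ ≤ T := (Real.log_le_sub_one_of_pos (by linarith)).trans (by linarith)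

lemma DD_lt {T : ℝ} (hT : 3 ≤ T) : DD T < T := by
  have hl := log_ge_one hT
  unfold DD
  rw [div_lt_iff₀ (Real.rpow_pos_of_pos (by linarith) _)]
  have : 1 < Real.log T ^ (2 / 3 : ℝ) := Real.one_lt_rpow hl (by norm_num)
  nlinarith

lemma grid_ge {X1 : ℝ} (hX : 3 ≤ X1) (i : ℕ) : X1 + i ≤ grid X1 i := by
  induction i with
  | zero => simp [grid]
  | succ i ih =>
    have h3 : 3 ≤ grid X1 i := by
      have : (0 : ℝ) ≤ i := Nat.cast_nonneg i
      linarith
    have := one_le_DD h3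
    show X1 + ((i + 1 : ℕ) : ℝ) ≤ grid X1 i + DD (grid X1 i)
    push_cast
    linarith

/-- The set of ordinates up to `Y`. -/
def SY (Y : ℝ) : Set ℝ := {γ : ℝ | 0 < γ ∧ γ ≤ Y ∧ riemannZeta (1 / 2 + γ * I) = 0}

lemma Nb_eq {Y : ℝ} (hf : (SY Y).Finite) (b : ℝ → ℝ) : Nb b Y = ∑ γ ∈ hf.toFinset, b γ := by
  unfold Nb
  exact finsum_mem_eq_finite_toFinset_sum _ hf

lemma Nb_mono (hfin : ∀ Y : ℝ, (SY Y).Finite) {b : ℝ → ℝ} (hb : ∀ γ, 0 ≤ b γ) {X Y : ℝ}
    (h : X ≤ Y) : Nb b X ≤ Nb b Y := by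
  rw [Nb_eq (hfin X), Nb_eq (hfin Y)]
  refine Finset.sum_le_sum_of_subset_of_nonneg ?_ fun γ _ _ => hb γ
  intro γ hγ
  rw [Set.Finite.mem_toFinset] at hγ ⊢
  exact ⟨hγ.1, hγ.2.1.trans h, hγ.2.2⟩

/-- One window. -/
lemma window (hfin : ∀ Y : ℝ, (SY Y).Finite) (hz : ∀ T : ℝ, (zset T).Finite) {b : ℝ → ℝ}
    (hb : ∀ γ, 0 ≤ b γ) {T : ℝ} (hT : 3 ≤ T) :
    Nb b (T + DD T) ≤ Nb b T + Real.exp 1 * ∑ᶠ γ ∈ zset T, b γ * MS.wt T γ := by
  classical
  have hD1 := one_le_DD hT
  have hD2 := DD_lt hT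
  rw [Nb_eq (hfin _), Nb_eq (hfin T), finsum_mem_eq_finite_toFinset_sum _ (hz T)]
  set A := (hfin (T + DD T)).toFinset with hA
  set B := (hfin T).toFinset with hB
  set Z := (hz T).toFinset with hZ
  have hsub : B ⊆ A := by
    intro γ hγ
    rw [hB, Set.Finite.mem_toFinset] at hγ
    rw [hA, Set.Finite.mem_toFinset]
    exact ⟨hγ.1, by linarith [hγ.2.1], hγ.2.2⟩
  rw [← Finset.sum_sdiff hsub, add_comm]
  refine add_le_add_right ?_ _
  rw [Finset.mul_sum]
  have hmem : ∀ γ ∈ A \ B, γ ∈ Z ∧ T < γ ∧ γ ≤ T + DD T := by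
    intro γ hγ
    rw [Finset.mem_sdiff, hA, hB, Set.Finite.mem_toFinset, Set.Finite.mem_toFinset] at hγ
    obtain ⟨⟨h0, h1, h2⟩, h3⟩ := hγ
    have h4 : T < γ := by
      by_contra h
      exact h3 ⟨h0, not_lt.mp h, h2⟩
    refine ⟨?_, h4, h1⟩
    rw [hZ, Set.Finite.mem_toFinset]
    exact ⟨by linarith, by linarith, h2⟩
  refine le_trans (Finset.sum_le_sum (g := fun γ => Real.exp 1 * (b γ * MS.wt T γ)) ?_)
    (Finset.sum_le_sum_of_subset_of_nonneg (fun γ hγ => (hmem γ hγ).1) ?_)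
  · intro γ hγ
    obtain ⟨-, h1, h2⟩ := hmem γ hγ
    have h3 : Real.exp (-1) ≤ MS.wt T γ := by
      unfold MS.wt
      refine Real.exp_le_exp.mpr ?_
      rw [neg_div, neg_le_neg_iff, div_le_one (by positivity)]
      exact pow_le_pow_left₀ (by linarith) (by linarith) 2
    have h4 : 1 ≤ Real.exp 1 * MS.wt T γ := by
      calc (1 : ℝ) = Real.exp 1 * Real.exp (-1) := by rw [← Real.exp_add]; simp
        _ ≤ _ := mul_le_mul_of_nonneg_left h3 (Real.exp_pos 1).le
    calc b γ = b γ * 1 := (mul_one _).symm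
      _ ≤ b γ * (Real.exp 1 * MS.wt T γ) := mul_le_mul_of_nonneg_left h4 (hb γ)
      _ = _ := by ring
  · intro γ _ _
    exact mul_nonneg (Real.exp_pos 1).le (mul_nonneg (hb γ) (Real.exp_pos _).le)

/-- CNT -/
theorem cnt (hZ : ZfacStatement) : CntStatement := by
  intro X1 hX1
  have hfin : ∀ Y : ℝ, (SY Y).Finite := hZ.2.2.2.2.2.1
  have hz : ∀ T : ℝ, (zset T).Finite := hZ.2.2.2.2.2.2
  have hpi : 0 < Real.sqrt Real.pi := Real.sqrt_pos.mpr Real.pi_pos
  set K : ℝ := Real.exp 1 / (2 * Real.sqrt Real.pi) with hK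
  have hK0 : 0 < K := by positivity
  refine ⟨4 * K, by positivity, fun b κ hb hκ hw => ?_⟩
  -- the grid inequality
  have key : ∀ i : ℕ, Nb b (grid X1 i) ≤
      Nb b X1 + K * κ * (grid X1 i - X1) * Real.log (grid X1 i) := by
    intro i
    induction i with
    | zero => simp [grid]
    | succ i ih =>
      have hg := grid_ge hX1 i
      have hi0 : (0 : ℝ) ≤ i := Nat.cast_nonneg i
      have h3 : 3 ≤ grid X1 i := by linarith
      have hD := one_le_DD h3
      have h4 := window hfin hz hb h3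
      have h5 := hw (grid X1 i) (by linarith)
      have h6 : Real.log (grid X1 i) ≤ Real.log (grid X1 i + DD (grid X1 i)) :=
        Real.log_le_log (by linarith) (by linarith)
      have hl := log_ge_one h3
      show Nb b (grid X1 i + DD (grid X1 i)) ≤ Nb b X1 +
        K * κ * (grid X1 i + DD (grid X1 i) - X1) * Real.log (grid X1 i + DD (grid X1 i))
      have h7 : Real.exp 1 * ∑ᶠ γ ∈ zset (grid X1 i), b γ * MS.wt (grid X1 i) γ ≤
          K * κ * DD (grid X1 i) * Real.log (grid X1 i) := by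
        calc Real.exp 1 * ∑ᶠ γ ∈ zset (grid X1 i), b γ * MS.wt (grid X1 i) γ
            ≤ Real.exp 1 * (κ * (cG (grid X1 i) * Real.log (grid X1 i))) :=
              mul_le_mul_of_nonneg_left h5 (Real.exp_pos 1).le
          _ = _ := by
              rw [hK]
              unfold cG
              ring
      have hKκ : 0 ≤ K * κ := mul_nonneg hK0.le hκ
      have h8 : K * κ * (grid X1 i - X1 + DD (grid X1 i)) * Real.log (grid X1 i) ≤
          K * κ * (grid X1 i - X1 + DD (grid X1 i)) *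
            Real.log (grid X1 i + DD (grid X1 i)) :=
        mul_le_mul_of_nonneg_left h6 (mul_nonneg hKκ (by linarith))
      calc Nb b (grid X1 i + DD (grid X1 i)) ≤ Nb b X1 +
            K * κ * (grid X1 i - X1) * Real.log (grid X1 i) +
              K * κ * DD (grid X1 i) * Real.log (grid X1 i) := by linarith
        _ = Nb b X1 + K * κ * (grid X1 i - X1 + DD (grid X1 i)) * Real.log (grid X1 i) := by
            ring
        _ ≤ Nb b X1 + K * κ * (grid X1 i - X1 + DD (grid X1 i)) *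
            Real.log (grid X1 i + DD (grid X1 i)) := by linarith
        _ = _ := by ring
  intro X hX
  classical
  have hex : ∃ i : ℕ, X ≤ grid X1 i := by
    obtain ⟨i, hi⟩ := exists_nat_ge X
    exact ⟨i, hi.trans (by linarith [grid_ge hX1 i])⟩
  have hspec := Nat.find_spec hex
  have hX3 : 3 ≤ X := hX1.trans hX
  have hl := log_ge_one hX3
  have hKκ : 0 ≤ K * κ := mul_nonneg hK0.le hκ
  rcases Nat.eq_zero_or_pos (Nat.find hex) with h0 | hpos
  · rw [h0] at hspec
    have hXX : X = X1 := le_antisymm hspec hX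
    rw [hXX]
    have : 0 ≤ 4 * K * κ * (X1 * Real.log X1) := by
      have := log_ge_one hX1
      have h9 : 0 ≤ X1 * Real.log X1 := mul_nonneg (by linarith) (by linarith)
      have : 4 * K * κ * (X1 * Real.log X1) = 4 * (K * κ * (X1 * Real.log X1)) := by ring
      rw [this]
      exact mul_nonneg (by norm_num) (mul_nonneg hKκ h9)
    linarith
  · obtain ⟨j, hj⟩ : ∃ j, Nat.find hex = j + 1 := ⟨Nat.find hex - 1, by omega⟩
    rw [hj] at hspec
    have hlt : grid X1 j < X := not_le.mp (Nat.find_min hex (by omega))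
    have h3 : 3 ≤ grid X1 j := by
      have := grid_ge hX1 j
      have : (0 : ℝ) ≤ j := Nat.cast_nonneg j
      linarith
    have hD := DD_lt h3
    have hD1 := one_le_DD h3
    have h2X : grid X1 (j + 1) ≤ 2 * X := by
      show grid X1 j + DD (grid X1 j) ≤ 2 * X
      linarith
    have hlog2 : Real.log (grid X1 (j + 1)) ≤ 2 * Real.log X := by
      have h4 : Real.log (grid X1 (j + 1)) ≤ Real.log (2 * X) :=
        Real.log_le_log (by
          show 0 < grid X1 j + DD (grid X1 j)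
          linarith) h2X
      rw [Real.log_mul (by norm_num) (by linarith)] at h4
      have h5 : Real.log 2 ≤ Real.log X := Real.log_le_log (by norm_num) (by linarith)
      linarith
    have hlog0 : 0 ≤ Real.log (grid X1 (j + 1)) := Real.log_nonneg (by
      show 1 ≤ grid X1 j + DD (grid X1 j)
      linarith)
    have hk := key (j + 1)
    have hm := Nb_mono hfin hb hspec
    have h6 : K * κ * (grid X1 (j + 1) - X1) * Real.log (grid X1 (j + 1)) ≤
        K * κ * (2 * X) * (2 * Real.log X) := by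
      refine mul_le_mul (mul_le_mul_of_nonneg_left (by linarith) hKκ) hlog2 hlog0 ?_
      exact mul_nonneg hKκ (by linarith)
    calc Nb b X ≤ Nb b (grid X1 (j + 1)) := hm
      _ ≤ Nb b X1 + K * κ * (grid X1 (j + 1) - X1) * Real.log (grid X1 (j + 1)) := hk
      _ ≤ Nb b X1 + K * κ * (2 * X) * (2 * Real.log X) := by linarith
      _ = _ := by ring

end Pool.Agent.Lib.MP_6bc78b_nt.MS.P5.H70
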