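import Pool.Agent.Lib.MP_6bc78b_nt.MS.P5.Iface
import Pool.Agent.Lib.MP_6bc78b_nt.MS.P4.H70.QSA
import Pool.Agent.Lib.MP_6bc78b_nt.MS.P4.H30.Zfac

/-! Project MS, Part V, module DEV: the weighted number of zeros of large multiplicity. -/

set_option autoImplicit false

open Complex Filter Topology ArithmeticFunction

namespace Pool.Agent.Lib.MP_6bc78b_nt.MS.P5.H70

open Pool.Agent.Lib.MP_6bc78b_nt.MS Pool.Agent.Lib.MP_6bc78b_nt.MS.P5

lemma zset_finite (T : ℝ) : (zset T).Finite := P4.H30.zfac.2.2.2.2.2.2 T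

lemma re_mul_conj_pow (z : ℂ) (k : ℕ) :
    (z ^ k * (starRingEnd ℂ) (z ^ k)).re = (‖z‖ ^ 2) ^ k := by
  rw [Complex.mul_conj, Complex.ofReal_re, Complex.normSq_eq_norm_sq, norm_pow, ← pow_mul,
    ← pow_mul, mul_comm]

lemma moment_eq {T : ℝ} (hf : (zset T).Finite) (lam : ℝ) (k : ℕ) :
    (ZS T (fun s => BP lam T s ^ k * (starRingEnd ℂ) (BP lam T s ^ k))).re =
      ∑ γ ∈ hf.toFinset, (mz γ : ℝ) * MS.wt T γ * (‖BP lam T (1 / 2 + γ * I)‖ ^ 2) ^ k := by
  rw [P4.H70.ZS_re_eq_sum hf]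
  exact Finset.sum_congr rfl fun γ _ => by rw [re_mul_conj_pow]

lemma bp_ne {lam T : ℝ} (n : ℕ) (h : bp lam T n ≠ 0) : n.Prime ∧ n ≤ ⌊T ^ lam⌋₊ := by
  change (if n.Prime then bb lam T n else 0) ≠ 0 at h
  by_cases hp : n.Prime
  · rw [if_pos hp] at h
    refine ⟨hp, Nat.le_floor ?_⟩
    by_contra hc
    apply h
    change bbf lam T n = 0
    unfold bbf
    rw [if_neg hc]
  · rw [if_neg hp] at h
    exact absurd rfl h

lemma SQ_le (h4 : CmbStatement) {C4 T lam : ℝ}
    (hs : ∑ p ∈ Finset.Icc 1 ⌊T ^ lam⌋₊, bp lam T p ^ 2 / (p : ℝ) ≤ C4)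
    (hb : ∀ n : ℕ, 0 ≤ bp lam T n) (k : ℕ) :
    SQ lam T k ≤ (k.factorial : ℝ) * C4 ^ k := by
  unfold SQ
  refine (h4 (bp lam T) ⌊T ^ lam⌋₊ ⌊T⌋₊ k hb (fun n hn => bp_ne n hn)).trans ?_
  refine mul_le_mul_of_nonneg_left (pow_le_pow_left₀ ?_ hs k) (Nat.cast_nonneg _)
  exact Finset.sum_nonneg fun p _ => by positivity

lemma cG_log_ge {T : ℝ} (hT : 4 ≤ T) : 1 ≤ cG T * Real.log T := by
  have hl : 1 ≤ Real.log T := by
    have h : Real.exp 1 ≤ T := by
      have := Real.exp_one_lt_d9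
      linarith
    have := Real.log_le_log (Real.exp_pos 1) h
    rwa [Real.log_exp] at this
  have hpi : Real.sqrt Real.pi ≤ 2 := by
    rw [Real.sqrt_le_left (by norm_num)]
    have := Real.pi_le_four
    linarith
  have hpi0 : 0 < Real.sqrt Real.pi := Real.sqrt_pos.mpr Real.pi_pos
  have h1 : T ≤ DD T * Real.log T := by
    unfold DD
    rw [div_mul_eq_mul_div, le_div_iff₀ (Real.rpow_pos_of_pos (by linarith) _)]
    refine mul_le_mul_of_nonneg_left ?_ (by linarith)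
    calc Real.log T ^ (2 / 3 : ℝ) ≤ Real.log T ^ (1 : ℝ) :=
          Real.rpow_le_rpow_of_exponent_le hl (by norm_num)
      _ = Real.log T := Real.rpow_one _
  unfold cG
  rw [div_mul_eq_mul_div, le_div_iff₀ (by positivity)]
  linarith

/-- DEV -/
theorem dev (h1 : PtuStatement) (h2 : PpwStatement) (h3 : SigStatement) (h4 : CmbStatement)
    (h5 : MomkStatement) (h6 : MaxmStatement) : DevStatement := by
  intro ε hε0 hε1
  obtain ⟨C1, T1, hC1, hT1, hptu⟩ := h1
  obtain ⟨C2, hC2, hppw⟩ := h2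
  obtain ⟨C4, hC4, hsig⟩ := h3
  obtain ⟨C3, T3, hC3, hT3, hmom⟩ := h5 (ε / 4) (by linarith) (by linarith)
  have hev : ∀ᶠ T : ℝ in atTop, (∀ γ ∈ zset T, (mz γ : ℝ) ≤
      3 / 5 * Real.log T / Real.log (Real.log T)) ∧ 1 ≤ Real.log (Real.log T) :=
    h6.and ((Real.tendsto_log_atTop.comp Real.tendsto_log_atTop).eventually_ge_atTop 1)
  obtain ⟨T6, hT6⟩ := Filter.eventually_atTop.mp hev
  -- parameters
  set a : ℝ := 1 + ε / 4 with ha
  have ha1 : 1 < a := by rw [ha]; linarith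
  have ha2 : a ≤ 5 / 4 := by rw [ha]; linarith
  set c : ℝ := (1 - 1 / a) / 4 with hc
  have hc0 : 0 < c := by
    have : 1 / a < 1 := by rw [div_lt_one (by linarith)]; exact ha1
    rw [hc]
    linarith
  obtain ⟨M0, hM0⟩ := exists_nat_ge (max 2 (max ((C1 + C2) / c) (2 / ε)))
  have hM02 : (2 : ℝ) ≤ M0 := (le_max_left _ _).trans hM0
  have hM0c : (C1 + C2) / c ≤ M0 := (le_max_left _ _).trans ((le_max_right _ _).trans hM0)
  have hM0e : 2 / ε ≤ M0 := (le_max_right _ _).trans ((le_max_right _ _).trans hM0)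
  set K : ℝ := max 1 (max (C4 / c ^ 2) (1 / c ^ 2)) with hK
  have hK1 : 1 ≤ K := le_max_left _ _
  have hK2 : C4 / c ^ 2 ≤ K := (le_max_left _ _).trans (le_max_right _ _)
  have hK3 : 1 / c ^ 2 ≤ K := (le_max_right _ _).trans (le_max_right _ _)
  set KM : ℝ := max K M0 with hKM
  have hKM1 : K ≤ KM := le_max_left _ _
  have hKM2 : (M0 : ℝ) ≤ KM := le_max_right _ _
  have hKM0 : 0 < KM := by linarith
  refine ⟨(2 + C3) * KM, max 4 (max T1 (max T3 T6)), by positivity,
    lt_of_lt_of_le (by norm_num) (le_max_left _ _), fun T m hT hm => ?_⟩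
  have hT4 : 4 ≤ T := (le_max_left _ _).trans hT
  have hTT1 : T1 ≤ T := (le_max_left _ _).trans ((le_max_right _ _).trans hT)
  have hTT3 : T3 ≤ T :=
    (le_max_left _ _).trans ((le_max_right _ _).trans ((le_max_right _ _).trans hT))
  have hTT6 : T6 ≤ T :=
    (le_max_right _ _).trans ((le_max_right _ _).trans ((le_max_right _ _).trans hT))
  obtain ⟨hmax, hll⟩ := hT6 T hTT6
  have hcG := cG_log_ge hT4
  have hl1 : 1 ≤ Real.log T := by
    have h : Real.exp 1 ≤ T := by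
      have := Real.exp_one_lt_d9
      linarith
    have := Real.log_le_log (Real.exp_pos 1) h
    rwa [Real.log_exp] at this
  have hm1 : (1 : ℝ) ≤ m := by exact_mod_cast hm
  have hm0 : (0 : ℝ) < m := by linarith
  set Q : ℝ := (m : ℝ) ^ (-(1 - ε) * (m : ℝ)) with hQ
  have hQ0 : 0 < Q := Real.rpow_pos_of_pos hm0 _
  set G : ℝ := cG T * Real.log T with hG
  have hG0 : 0 < G := by linarith
  have hf := zset_finite T
  have hfm : {γ | γ ∈ zset T ∧ m ≤ mz γ}.Finite := hf.subset fun γ hγ => hγ.1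
  have hwt : ∀ γ : ℝ, 0 ≤ MS.wt T γ := fun γ => (Real.exp_pos _).le
  have e1 : ∑ᶠ (γ : ℝ) (_ : γ ∈ {γ | γ ∈ zset T ∧ m ≤ mz γ}), (mz γ : ℝ) * MS.wt T γ
      = ∑ γ ∈ hfm.toFinset, (mz γ : ℝ) * MS.wt T γ := finsum_mem_eq_finite_toFinset_sum _ hfm
  rw [e1]
  have hsub : hfm.toFinset ⊆ hf.toFinset := by
    intro γ hγ
    rw [Set.Finite.mem_toFinset] at hγ ⊢
    exact hγ.1
  -- the general moment inequality
  have hmoment : ∀ (lam x : ℝ) (k : ℕ), 1 / Real.log T ≤ lam → (k : ℝ) * lam ≤ 1 - ε / 4 →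
      0 ≤ x → (∀ γ ∈ hfm.toFinset, x ≤ ‖BP lam T (1 / 2 + γ * I)‖) →
      (x ^ 2) ^ k * ∑ γ ∈ hfm.toFinset, (mz γ : ℝ) * MS.wt T γ ≤
        2 * G * ((k.factorial : ℝ) * C4 ^ k) + C3 := by
    intro lam x k hlam hk hx hxx
    have h7 := hmom T lam k hTT3 hlam hk
    rw [moment_eq hf] at h7
    have hs := hsig T lam (by linarith) hlam
    have h8 := SQ_le h4 hs.1 (fun n => (hs.2 n).1) k
    have h9 : 2 * G * SQ lam T k ≤ 2 * G * ((k.factorial : ℝ) * C4 ^ k) :=
      mul_le_mul_of_nonneg_left h8 (by linarith)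
    have h10 : (x ^ 2) ^ k * ∑ γ ∈ hfm.toFinset, (mz γ : ℝ) * MS.wt T γ ≤
        ∑ γ ∈ hf.toFinset, (mz γ : ℝ) * MS.wt T γ * (‖BP lam T (1 / 2 + γ * I)‖ ^ 2) ^ k := by
      rw [Finset.mul_sum]
      refine (Finset.sum_le_sum (g := fun γ : ℝ => (mz γ : ℝ) * MS.wt T γ *
        (‖BP lam T (1 / 2 + γ * I)‖ ^ 2) ^ k) fun γ hγ => ?_).trans
        (Finset.sum_le_sum_of_subset_of_nonneg hsub fun γ _ _ => ?_)
      · rw [mul_comm]
        refine mul_le_mul_of_nonneg_left ?_ (mul_nonneg (Nat.cast_nonneg _) (hwt γ))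
        exact pow_le_pow_left₀ (sq_nonneg x) (pow_le_pow_left₀ hx (hxx γ hγ) 2) k
      · exact mul_nonneg (mul_nonneg (Nat.cast_nonneg _) (hwt γ)) (pow_nonneg (sq_nonneg _) k)
    linarith
  have hpowC : ∀ j : ℕ, (0 : ℝ) < ((2 + C3) * KM) ^ j := fun j => by positivity
  have h2C3 : (1 : ℝ) ≤ 2 + C3 := by linarith
  have hmne : m ≠ 0 := by omega
  rcases lt_or_ge m M0 with hsmall | hbig
  · -- small multiplicities
    have h7 := hmoment (1 / Real.log T) 0 0 le_rfl (by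
      rw [Nat.cast_zero, zero_mul]; linarith) le_rfl (fun γ _ => norm_nonneg _)
    simp only [pow_zero, one_mul, Nat.factorial_zero, Nat.cast_one, mul_one] at h7
    have h8 : 2 * G + C3 ≤ G * (2 + C3) := by nlinarith
    refine (h7.trans h8).trans (mul_le_mul_of_nonneg_left ?_ hG0.le)
    have hmM : (m : ℝ) ≤ KM := le_trans (by exact_mod_cast hsmall.le) hKM2
    have h9 : (m : ℝ) ^ ((1 - ε) * (m : ℝ)) ≤ KM ^ m := by
      calc (m : ℝ) ^ ((1 - ε) * (m : ℝ)) ≤ (m : ℝ) ^ (m : ℝ) :=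
            Real.rpow_le_rpow_of_exponent_le hm1 (by nlinarith)
        _ = (m : ℝ) ^ m := Real.rpow_natCast _ _
        _ ≤ KM ^ m := pow_le_pow_left₀ hm0.le hmM m
    have h10 : 1 ≤ KM ^ m * Q := by
      have h11 : (m : ℝ) ^ ((1 - ε) * (m : ℝ)) * Q = 1 := by
        rw [hQ, ← Real.rpow_add hm0]
        have h12 : (1 - ε) * (m : ℝ) + -(1 - ε) * (m : ℝ) = 0 := by ring
        rw [h12, Real.rpow_zero]
      calc (1 : ℝ) = (m : ℝ) ^ ((1 - ε) * (m : ℝ)) * Q := h11.symm
        _ ≤ _ := mul_le_mul_of_nonneg_right h9 hQ0.le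
    have h12 : 2 + C3 ≤ (2 + C3) ^ m := le_self_pow₀ h2C3 hmne
    calc 2 + C3 ≤ (2 + C3) ^ m := h12
      _ = (2 + C3) ^ m * 1 := (mul_one _).symm
      _ ≤ (2 + C3) ^ m * (KM ^ m * Q) :=
          mul_le_mul_of_nonneg_left h10 (by positivity)
      _ = _ := by rw [mul_pow]; ring
  · -- large multiplicities
    rcases Finset.eq_empty_or_nonempty hfm.toFinset with hemp | ⟨γ0, hγ0⟩
    · rw [hemp, Finset.sum_empty]
      have := hpowC m
      positivity
    · have hbigR : (M0 : ℝ) ≤ m := by exact_mod_cast hbig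
      have hm2 : (2 : ℝ) ≤ m := hM02.trans hbigR
      have hmL : (m : ℝ) ≤ Real.log T := by
        rw [Set.Finite.mem_toFinset] at hγ0
        have h7 : (m : ℝ) ≤ mz γ0 := by exact_mod_cast hγ0.2
        have h8 := hmax γ0 hγ0.1
        have h9 : 3 / 5 * Real.log T / Real.log (Real.log T) ≤ 3 / 5 * Real.log T :=
          div_le_self (by linarith) hll
        linarith
      set lam : ℝ := a / m with hlam
      have hlam0 : 0 < lam := by positivity
      have hlam1 : 1 / Real.log T ≤ lam := by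
        rw [hlam, div_le_div_iff₀ (by linarith) hm0]
        nlinarith
      have hlam2 : lam ≤ 9 / 10 := by
        rw [hlam, div_le_iff₀ hm0]
        linarith
      set k : ℕ := ⌊(1 - ε / 4) * m / a⌋₊ with hk
      have hk0 : (0 : ℝ) ≤ (1 - ε / 4) * m / a := by
        have : 0 ≤ 1 - ε / 4 := by linarith
        positivity
      have hk1 : (k : ℝ) ≤ (1 - ε / 4) * m / a := Nat.floor_le hk0
      have hk2 : (1 - ε / 4) * m / a < k + 1 := Nat.lt_floor_add_one _
      have hklam : (k : ℝ) * lam ≤ 1 - ε / 4 := by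
        calc (k : ℝ) * lam ≤ ((1 - ε / 4) * m / a) * lam :=
              mul_le_mul_of_nonneg_right hk1 hlam0.le
          _ = 1 - ε / 4 := by
              rw [hlam]
              field_simp
      have hkm : (k : ℝ) ≤ m := by
        refine hk1.trans ?_
        rw [div_le_iff₀ (by linarith)]
        nlinarith
      have hkm' : k ≤ m := by exact_mod_cast hkm
      have hke : (1 - ε) * (m : ℝ) ≤ k := by
        have h7 : (1 - ε / 2) * m ≤ (1 - ε / 4) * m / a := by
          rw [le_div_iff₀ (by linarith), ha]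
          nlinarith [mul_pos hε0 hε0, mul_pos (mul_pos hε0 hε0) hm0]
        have h8 : 1 ≤ ε / 2 * m := by
          have : 2 / ε ≤ m := hM0e.trans hbigR
          rw [div_le_iff₀ hε0] at this
          linarith
        linarith
      -- lower bound for the polynomial
      have hlow : ∀ γ ∈ hfm.toFinset, c * m ≤ ‖BP lam T (1 / 2 + γ * I)‖ := by
        intro γ hγ
        rw [Set.Finite.mem_toFinset] at hγ
        have h7 := hptu T lam hTT1 hlam1 hlam2 γ hγ.1
        have h8 := hppw T lam γ (by linarith) hlam1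
        have h9 : (m : ℝ) ≤ mz γ := by exact_mod_cast hγ.2
        have h10 : 1 / (2 * lam) = m / (2 * a) := by
          rw [hlam]
          field_simp
        have h11 : C1 / (lam * Real.log T) ≤ C1 := by
          apply div_le_self hC1.le
          rw [hlam, div_mul_eq_mul_div, le_div_iff₀ hm0, one_mul]
          nlinarith
        have h12 : |(BB lam T (1 / 2 + γ * I) - BP lam T (1 / 2 + γ * I)).re| ≤ C2 :=
          (Complex.abs_re_le_norm _).trans h8
        have h13 := Complex.abs_re_le_norm (BP lam T (1 / 2 + γ * I))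
        rw [Complex.sub_re] at h12
        have h14 := abs_le.mp h12
        have h15 := neg_abs_le (BP lam T (1 / 2 + γ * I)).re
        have h16 : C1 + C2 ≤ c * m := by
          have := hM0c.trans hbigR
          rw [div_le_iff₀ hc0] at this
          linarith
        have h17 : (m : ℝ) / (2 * a) - m / 2 = -(2 * (c * m)) := by
          rw [hc]
          field_simp
          ring
        rw [h10] at h7
        linarith
      have h7 := hmoment lam (c * m) k hlam1 hklam (by positivity) hlow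
      set S : ℝ := ∑ γ ∈ hfm.toFinset, (mz γ : ℝ) * MS.wt T γ with hS
      -- conclusion
      have hcm : 0 < c * m := by positivity
      have hx : 0 < ((c * m) ^ 2) ^ k := by positivity
      have hfac : (k.factorial : ℝ) ≤ (m : ℝ) ^ k := by
        calc (k.factorial : ℝ) ≤ (k : ℝ) ^ k := by exact_mod_cast Nat.factorial_le_pow k
          _ ≤ (m : ℝ) ^ k := pow_le_pow_left₀ (Nat.cast_nonneg _) hkm k
      have hmk : (0 : ℝ) < (m : ℝ) ^ k := by positivity
      have hmk1 : (1 : ℝ) ≤ (m : ℝ) ^ k := one_le_pow₀ hm1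
      have hPQ : 1 / (m : ℝ) ^ k ≤ Q := by
        rw [hQ, neg_mul, Real.rpow_neg hm0.le, one_div]
        apply inv_anti₀ (Real.rpow_pos_of_pos hm0 _)
        calc (m : ℝ) ^ ((1 - ε) * (m : ℝ)) ≤ (m : ℝ) ^ (k : ℝ) :=
              Real.rpow_le_rpow_of_exponent_le hm1 hke
          _ = (m : ℝ) ^ k := Real.rpow_natCast _ _
      have hS1 : S ≤ (2 * G * ((m : ℝ) ^ k * C4 ^ k) + C3 * G * (m : ℝ) ^ k) /
          ((c * m) ^ 2) ^ k := by
        rw [le_div_iff₀ hx]
        have h8 : 2 * G * ((k.factorial : ℝ) * C4 ^ k) ≤ 2 * G * ((m : ℝ) ^ k * C4 ^ k) :=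
          mul_le_mul_of_nonneg_left (mul_le_mul_of_nonneg_right hfac (by positivity))
            (by linarith)
        have h9 : C3 ≤ C3 * G * (m : ℝ) ^ k := by
          have : 1 ≤ G * (m : ℝ) ^ k := one_le_mul_of_one_le_of_one_le hcG hmk1
          calc C3 = C3 * 1 := (mul_one _).symm
            _ ≤ C3 * (G * (m : ℝ) ^ k) := mul_le_mul_of_nonneg_left this hC3.le
            _ = _ := by ring
        calc S * ((c * m) ^ 2) ^ k = ((c * m) ^ 2) ^ k * S := mul_comm _ _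
          _ ≤ 2 * G * ((k.factorial : ℝ) * C4 ^ k) + C3 := h7
          _ ≤ _ := add_le_add h8 h9
      have hS2 : (2 * G * ((m : ℝ) ^ k * C4 ^ k) + C3 * G * (m : ℝ) ^ k) /
          ((c * m) ^ 2) ^ k = G * (2 * (C4 / c ^ 2) ^ k + C3 * (1 / c ^ 2) ^ k) *
            (1 / (m : ℝ) ^ k) := by
        have e2 : (C4 / c ^ 2) ^ k = C4 ^ k / (c ^ k) ^ 2 := by
          rw [div_pow, ← pow_mul, ← pow_mul, mul_comm]
        have e3 : (1 / c ^ 2) ^ k = 1 / (c ^ k) ^ 2 := by
          rw [div_pow, one_pow, ← pow_mul, ← pow_mul, mul_comm]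
        have e4 : ((c * m) ^ 2) ^ k = (c ^ k) ^ 2 * ((m : ℝ) ^ k) ^ 2 := by
          rw [← pow_mul, mul_comm 2 k, pow_mul, mul_pow, mul_pow]
        have h8 : c ^ k ≠ 0 := pow_ne_zero _ hc0.ne'
        have h9 : (m : ℝ) ^ k ≠ 0 := hmk.ne'
        rw [e2, e3, e4]
        field_simp
      have hb1 : (C4 / c ^ 2) ^ k ≤ K ^ m :=
        (pow_le_pow_left₀ (by positivity) hK2 k).trans (pow_le_pow_right₀ hK1 hkm')
      have hb2 : (1 / c ^ 2) ^ k ≤ K ^ m :=
        (pow_le_pow_left₀ (by positivity) hK3 k).trans (pow_le_pow_right₀ hK1 hkm')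
      have hKm : 0 < K ^ m := by positivity
      have hb3 : 2 * (C4 / c ^ 2) ^ k + C3 * (1 / c ^ 2) ^ k ≤ (2 + C3) * K ^ m := by
        have := mul_le_mul_of_nonneg_left hb2 hC3.le
        linarith
      have h12 : 2 + C3 ≤ (2 + C3) ^ m := le_self_pow₀ h2C3 hmne
      have hb4 : (2 + C3) * K ^ m ≤ ((2 + C3) * KM) ^ m := by
        rw [mul_pow]
        exact mul_le_mul h12 (pow_le_pow_left₀ (by linarith) hKM1 m) hKm.le (by positivity)
      rw [hS2] at hS1
      calc S ≤ G * (2 * (C4 / c ^ 2) ^ k + C3 * (1 / c ^ 2) ^ k) * (1 / (m : ℝ) ^ k) := hS1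
        _ ≤ G * (((2 + C3) * KM) ^ m) * Q := by
            refine mul_le_mul (mul_le_mul_of_nonneg_left (hb3.trans hb4) hG0.le) hPQ
              (by positivity) ?_
            exact mul_nonneg hG0.le (hpowC m).le
        _ = _ := by ring

end Pool.Agent.Lib.MP_6bc78b_nt.MS.P5.H70
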